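import Pool.Agent.R340.CF.Link
import Pool.Agent.Y227.SS.Defs

set_option autoImplicit false

/-!
Vanishing of the `p`-curvature and factorial cancellation for a positive proportion of the residue
classes.
-/

open Polynomial Pool.Agent.W432.PC Pool.Agent.Y227.SS Pool.Agent.R340.CF

namespace Pool.Agent.N858.CV

universe u

section defs

variable {R : Type*} [CommRing R] [IsDomain R] {n r : ℕ}

/-- There is a set of at least `ε φ(N)` residue classes modulo `N`, prime to `N`, such that for every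
nonzero polynomial `F` and all large primes `p` in these classes some entry of `A_p` is not in
`p R[z, 1 / F]`. -/
def NoVanishClasses (α : Fin n → R) (A : Fin n → Matrix (Fin r) (Fin r) R) (N : ℕ) (ε : ℝ) : Prop :=
  ∃ S : Finset (ZMod N)ˣ, ε * N.totient ≤ S.card ∧ ∀ F : R[X], F ≠ 0 → ∃ P₀ : ℕ,
    ∀ p : ℕ, p.Prime → P₀ < p → (∃ v ∈ S, ((p : ℕ) : ZMod N) = ((v : (ZMod N)ˣ) : ZMod N)) →
      ¬ PVanishes α A F p

/-- There is a set of at least `ε φ(N)` residue classes modulo `N`, prime to `N`, such that for every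
nonzero `M` in `R` and all large primes `p` in these classes some entry of `(M Δ) ^ p A_p / p!` is not
in `R[z]`. -/
def NoCancelClasses (α : Fin n → R) (A : Fin n → Matrix (Fin r) (Fin r) R) (N : ℕ) (ε : ℝ) : Prop :=
  ∃ S : Finset (ZMod N)ˣ, ε * N.totient ≤ S.card ∧ ∀ M : R, M ≠ 0 → ∃ P₀ : ℕ,
    ∀ p : ℕ, p.Prime → P₀ < p → (∃ v ∈ S, ((p : ℕ) : ZMod N) = ((v : (ZMod N)ˣ) : ZMod N)) →
      ¬ CancelsAt α A M p

end defs

variable {R : Type u} [CommRing R] [IsDomain R] [CharZero R] [Algebra.FiniteType ℤ R] {n r : ℕ}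

lemma exists_mem_of_card {N : ℕ} (hN : 0 < N) {ε : ℝ} (hε : 0 < ε) {S : Finset (ZMod N)ˣ}
    (hS : ε * N.totient ≤ S.card) : ∃ v, v ∈ S := by
  by_contra h
  push Not at h
  have h1 : S = ∅ := Finset.eq_empty_of_forall_notMem h
  rw [h1] at hS
  have h2 : (0 : ℝ) < N.totient := by exact_mod_cast Nat.totient_pos.mpr hN
  have h3 : 0 < ε * N.totient := mul_pos hε h2
  simp only [Finset.card_empty, Nat.cast_zero] at hS
  linarith

lemma exists_prime_unit {N : ℕ} (hN : 0 < N) (v : (ZMod N)ˣ) (P₀ : ℕ) :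
    ∃ p : ℕ, p.Prime ∧ P₀ < p ∧ ((p : ℕ) : ZMod N) = (v : ZMod N) := by
  haveI : NeZero N := ⟨hN.ne'⟩
  obtain ⟨p, hpP, hp, hpc⟩ := Nat.forall_exists_prime_gt_and_eq_mod v.isUnit P₀
  exact ⟨p, hp, hpP, hpc⟩

theorem noVanishClasses {α : Fin n → R} {A : Fin n → Matrix (Fin r) (Fin r) R} {N : ℕ} {ε : ℝ}
    (hN : 0 < N) (hε : 0 < ε) (h : ∃ g : R, g ≠ 0 ∧ BadClasses α A N ε g) :
    NoVanishClasses α A N ε ∧ ¬ VanishesAlmost α A := by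
  obtain ⟨g, hg, S, P₀, hS, hP⟩ := h
  have key : ∀ F : R[X], F ≠ 0 → ∃ P₀ : ℕ, ∀ p : ℕ, p.Prime → P₀ < p →
      (∃ v ∈ S, ((p : ℕ) : ZMod N) = ((v : (ZMod N)ˣ) : ZMod N)) → ¬ PVanishes α A F p := by
    intro F hF
    obtain ⟨P₁, hP₁⟩ := exists_closed_point R (mul_ne_zero hg (leadingCoeff_ne_zero.2 hF))
    refine ⟨max P₀ P₁, fun p hp hpP hap hc => ?_⟩
    obtain ⟨𝔪, h𝔪, hpm, hgF⟩ := hP₁ p hp (lt_of_le_of_lt (le_max_right _ _) hpP)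
    have hgm : g ∉ 𝔪 := fun h0 => hgF (Ideal.mul_mem_right _ _ h0)
    have hFm : F.leadingCoeff ∉ 𝔪 := fun h0 => hgF (Ideal.mul_mem_left _ _ h0)
    exact hP p hp (lt_of_le_of_lt (le_max_left _ _) hpP) hap 𝔪 hpm hgm (hc.zeroAt hp 𝔪 hpm hFm)
  refine ⟨⟨S, hS, key⟩, ?_⟩
  rintro ⟨F, hF, hfin⟩
  obtain ⟨v, hv⟩ := exists_mem_of_card hN hε hS
  obtain ⟨P₂, hP₂⟩ := key F hF
  obtain ⟨P₁, hP₁⟩ := hfin.bddAbove
  obtain ⟨p, hp, hpP, hpv⟩ := exists_prime_unit hN v (max P₂ P₁)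
  have h1 := hP₂ p hp (lt_of_le_of_lt (le_max_left _ _) hpP) ⟨v, hv, hpv⟩
  have h2 := hP₁ (show p ∈ {p : ℕ | p.Prime ∧ ¬ PVanishes α A F p} from ⟨hp, h1⟩)
  exact absurd h2 (not_le.mpr (lt_of_le_of_lt (le_max_right _ _) hpP))

theorem noCancelClasses {α : Fin n → R} {A : Fin n → Matrix (Fin r) (Fin r) R} {N : ℕ} {ε : ℝ}
    (hN : 0 < N) (hε : 0 < ε) (h : ∃ g : R, g ≠ 0 ∧ BadClasses α A N ε g) :
    NoCancelClasses α A N ε ∧ ¬ Cancels α A := by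
  obtain ⟨g, hg, S, P₀, hS, hP⟩ := h
  have key : ∀ M : R, M ≠ 0 → ∃ P₀ : ℕ, ∀ p : ℕ, p.Prime → P₀ < p →
      (∃ v ∈ S, ((p : ℕ) : ZMod N) = ((v : (ZMod N)ˣ) : ZMod N)) → ¬ CancelsAt α A M p := by
    intro M hM
    obtain ⟨P₁, hP₁⟩ := exists_closed_point R (mul_ne_zero hg hM)
    refine ⟨max P₀ P₁, fun p hp hpP hap hc => ?_⟩
    obtain ⟨𝔪, h𝔪, hpm, hgM⟩ := hP₁ p hp (lt_of_le_of_lt (le_max_right _ _) hpP)
    have hgm : g ∉ 𝔪 := fun h0 => hgM (Ideal.mul_mem_right _ _ h0)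
    have hMm : M ∉ 𝔪 := fun h0 => hgM (Ideal.mul_mem_left _ _ h0)
    exact hP p hp (lt_of_le_of_lt (le_max_left _ _) hpP) hap 𝔪 hpm hgm (hc.zeroAt hp 𝔪 hpm hMm)
  refine ⟨⟨S, hS, key⟩, ?_⟩
  rintro ⟨M, hM, hc⟩
  obtain ⟨v, hv⟩ := exists_mem_of_card hN hε hS
  obtain ⟨P₂, hP₂⟩ := key M hM
  obtain ⟨p, hp, hpP, hpv⟩ := exists_prime_unit hN v P₂
  exact hP₂ p hp hpP ⟨v, hv, hpv⟩ (hc p hp.one_lt.le)

end Pool.Agent.N858.CV
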